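import Pool.Agent.Helper7.EC_E.GoalsM

/-!
# MP_ecc237_nt, Part E, packet MI: a rational integral
-/

set_option autoImplicit false

open MeasureTheory Filter Topology Set

namespace EC237.ZE.PkMI

/-! ### The two basic integrals -/

theorem int1 {c : ℝ} (hc : 0 < c) : Integrable (fun t : ℝ => 1 / (t ^ 2 + c ^ 2)) := by
  have h : Integrable (fun t : ℝ => (1 + (c⁻¹ * t) ^ 2)⁻¹) :=
    integrable_inv_one_add_sq.comp_mul_left' (inv_ne_zero hc.ne')
  have h2 := h.const_mul ((c ^ 2)⁻¹)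
  refine h2.congr (ae_of_all _ fun t => ?_)
  have : t ^ 2 + c ^ 2 ≠ 0 := by positivity
  have h3 : 1 + (c⁻¹ * t) ^ 2 ≠ 0 := by positivity
  simp only
  field_simp
  ring

theorem val1 {c : ℝ} (hc : 0 < c) : ∫ t : ℝ, 1 / (t ^ 2 + c ^ 2) = Real.pi / c := by
  have h := Measure.integral_comp_mul_left (fun x : ℝ => (1 + x ^ 2)⁻¹) c⁻¹
  rw [integral_univ_inv_one_add_sq, inv_inv, abs_of_pos hc, smul_eq_mul] at h
  have e : (fun t : ℝ => 1 / (t ^ 2 + c ^ 2)) = fun t => (c ^ 2)⁻¹ * (1 + (c⁻¹ * t) ^ 2)⁻¹ := by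
    funext t
    have : t ^ 2 + c ^ 2 ≠ 0 := by positivity
    have h3 : 1 + (c⁻¹ * t) ^ 2 ≠ 0 := by positivity
    field_simp
    ring
  rw [e, integral_const_mul, h]
  field_simp

theorem int2 {c : ℝ} (hc : 0 < c) : Integrable (fun t : ℝ => 1 / (t ^ 2 + c ^ 2) ^ 2) := by
  refine ((int1 hc).const_mul (c ^ 2)⁻¹).mono' ?_ (ae_of_all _ fun t => ?_)
  · apply Continuous.aestronglyMeasurable
    refine continuous_const.div (by fun_prop) fun t => ?_
    positivity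
  · have h0 : 0 < t ^ 2 + c ^ 2 := by positivity
    rw [Real.norm_of_nonneg (by positivity)]
    have h1 : (c ^ 2)⁻¹ * (1 / (t ^ 2 + c ^ 2)) = 1 / (c ^ 2 * (t ^ 2 + c ^ 2)) := by
      field_simp
    rw [h1]
    apply one_div_le_one_div_of_le (by positivity)
    nlinarith [sq_nonneg t]

theorem der {c : ℝ} (hc : 0 < c) (t : ℝ) : HasDerivAt (fun t : ℝ => t / (t ^ 2 + c ^ 2))
    (2 * c ^ 2 * (1 / (t ^ 2 + c ^ 2) ^ 2) - 1 / (t ^ 2 + c ^ 2)) t := by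
  have h0 : t ^ 2 + c ^ 2 ≠ 0 := by positivity
  have h1 : HasDerivAt (fun t : ℝ => t ^ 2 + c ^ 2) (2 * t) t := by
    have := (hasDerivAt_pow 2 t).add_const (c ^ 2)
    simpa using this
  have h2 := (hasDerivAt_id t).div h1 h0
  have e : (1 * (t ^ 2 + c ^ 2) - id t * (2 * t)) / (t ^ 2 + c ^ 2) ^ 2 =
      2 * c ^ 2 * (1 / (t ^ 2 + c ^ 2) ^ 2) - 1 / (t ^ 2 + c ^ 2) := by
    simp only [id]
    field_simp
    ring
  rw [e] at h2
  exact h2

theorem lim {c : ℝ} (l : Filter ℝ) (hl : Tendsto (fun t : ℝ => |t|) l atTop) :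
    Tendsto (fun t : ℝ => t / (t ^ 2 + c ^ 2)) l (𝓝 0) := by
  have h1 : Tendsto (fun t : ℝ => |t|⁻¹) l (𝓝 0) := tendsto_inv_atTop_zero.comp hl
  refine squeeze_zero_norm (fun t => ?_) h1
  rw [Real.norm_eq_abs, abs_div]
  by_cases ht : t = 0
  · simp [ht]
  have h2 : 0 < |t| := abs_pos.2 ht
  have h3 : |t ^ 2 + c ^ 2| = t ^ 2 + c ^ 2 := abs_of_nonneg (by positivity)
  rw [h3, div_le_iff₀ (by positivity), inv_mul_eq_div, le_div_iff₀ h2]
  nlinarith [sq_nonneg c, abs_mul_abs_self t]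

theorem val2 {c : ℝ} (hc : 0 < c) : ∫ t : ℝ, 1 / (t ^ 2 + c ^ 2) ^ 2 = Real.pi / (2 * c ^ 3) := by
  have hi : Integrable (fun t : ℝ => 2 * c ^ 2 * (1 / (t ^ 2 + c ^ 2) ^ 2) -
      1 / (t ^ 2 + c ^ 2)) := ((int2 hc).const_mul _).sub (int1 hc)
  have h := integral_of_hasDerivAt_of_tendsto (der hc) hi (lim (c := c) atBot tendsto_abs_atBot_atTop)
    (lim (c := c) atTop tendsto_abs_atTop_atTop)
  rw [integral_sub ((int2 hc).const_mul _) (int1 hc), integral_const_mul, val1 hc, sub_zero] at h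
  have h2 : 2 * c ^ 2 * ∫ t : ℝ, 1 / (t ^ 2 + c ^ 2) ^ 2 = Real.pi / c := by linarith
  have h3 : (2 * c ^ 2) ≠ 0 := by positivity
  apply mul_left_cancel₀ h3
  rw [h2]
  field_simp

/-! ### Partial fractions -/

noncomputable def al (u v w : ℝ) : ℝ := -u / ((v - u) ^ 2 * (w - u) ^ 2)

noncomputable def ga (u v w : ℝ) : ℝ := -v / ((u - v) * (w - v) ^ 2)

noncomputable def be (u v w : ℝ) : ℝ :=
  1 / ((u - v) * (w - v) ^ 2) + v / ((u - v) ^ 2 * (w - v) ^ 2) + 2 * v / ((u - v) * (w - v) ^ 3)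

theorem pf {X u v w : ℝ} (h1 : X + u ≠ 0) (h2 : X + v ≠ 0) (h3 : X + w ≠ 0) (huv : u - v ≠ 0)
    (huw : u - w ≠ 0) (hvw : v - w ≠ 0) :
    X / ((X + u) * (X + v) ^ 2 * (X + w) ^ 2) =
      al u v w * (1 / (X + u)) + be u v w * (1 / (X + v)) + ga u v w * (1 / (X + v) ^ 2) +
      be u w v * (1 / (X + w)) + ga u w v * (1 / (X + w) ^ 2) := by
  have hvu : v - u ≠ 0 := by rw [← neg_sub]; exact neg_ne_zero.2 huv
  have hwu : w - u ≠ 0 := by rw [← neg_sub]; exact neg_ne_zero.2 huw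
  have hwv : w - v ≠ 0 := by rw [← neg_sub]; exact neg_ne_zero.2 hvw
  unfold al be ga
  field_simp
  ring

/-- The final algebra. -/
theorem fin {a A B : ℝ} (ha : 0 < a) (hA : 0 < A) (hB : 0 < B) (h1 : a - A ≠ 0) (h2 : a - B ≠ 0)
    (h3 : A - B ≠ 0) :
    A * B * (al (a ^ 2) (A ^ 2) (B ^ 2) * (Real.pi / a) +
      be (a ^ 2) (A ^ 2) (B ^ 2) * (Real.pi / A) +
      ga (a ^ 2) (A ^ 2) (B ^ 2) * (Real.pi / (2 * A ^ 3)) +
      be (a ^ 2) (B ^ 2) (A ^ 2) * (Real.pi / B) +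
      ga (a ^ 2) (B ^ 2) (A ^ 2) * (Real.pi / (2 * B ^ 3))) =
      Real.pi / 128 * gg ((A + B) / 2) ((a + A) / 2) ((a + B) / 2) := by
  have h1' : A - a ≠ 0 := by rw [← neg_sub]; exact neg_ne_zero.2 h1
  have h2' : B - a ≠ 0 := by rw [← neg_sub]; exact neg_ne_zero.2 h2
  have h3' : B - A ≠ 0 := by rw [← neg_sub]; exact neg_ne_zero.2 h3
  have k1 : a + A ≠ 0 := by positivity
  have k2 : a + B ≠ 0 := by positivity
  have k3 : A + B ≠ 0 := by positivity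
  have e1 : a ^ 2 - A ^ 2 = (a - A) * (a + A) := by ring
  have e2 : a ^ 2 - B ^ 2 = (a - B) * (a + B) := by ring
  have e3 : A ^ 2 - B ^ 2 = (A - B) * (A + B) := by ring
  have e4 : A ^ 2 - a ^ 2 = -((a - A) * (a + A)) := by ring
  have e5 : B ^ 2 - a ^ 2 = -((a - B) * (a + B)) := by ring
  have e6 : B ^ 2 - A ^ 2 = -((A - B) * (A + B)) := by ring
  unfold al be ga gg
  rw [e1, e2, e3, e4, e5, e6]
  field_simp
  ring

/-- The integrand. -/
noncomputable def F (a A B t : ℝ) : ℝ :=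
  A * B * t ^ 2 / ((t ^ 2 + a ^ 2) * (t ^ 2 + A ^ 2) ^ 2 * (t ^ 2 + B ^ 2) ^ 2)

theorem dist {a A B : ℝ} (ha : 0 < a) (hA : 0 < A) (hB : 0 < B) (h1 : a ≠ A) (h2 : a ≠ B)
    (h3 : A ≠ B) : ∫ t : ℝ, F a A B t =
      Real.pi / 128 * gg ((A + B) / 2) ((a + A) / 2) ((a + B) / 2) := by
  have h1' := sub_ne_zero.2 h1
  have h2' := sub_ne_zero.2 h2
  have h3' := sub_ne_zero.2 h3
  have k1 : a + A ≠ 0 := by positivity
  have k2 : a + B ≠ 0 := by positivity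
  have k3 : A + B ≠ 0 := by positivity
  have e1 : a ^ 2 - A ^ 2 ≠ 0 := by
    have : a ^ 2 - A ^ 2 = (a - A) * (a + A) := by ring
    rw [this]; exact mul_ne_zero h1' k1
  have e2 : a ^ 2 - B ^ 2 ≠ 0 := by
    have : a ^ 2 - B ^ 2 = (a - B) * (a + B) := by ring
    rw [this]; exact mul_ne_zero h2' k2
  have e3 : A ^ 2 - B ^ 2 ≠ 0 := by
    have : A ^ 2 - B ^ 2 = (A - B) * (A + B) := by ring
    rw [this]; exact mul_ne_zero h3' k3
  have hF : ∀ t : ℝ, F a A B t = A * B * (al (a ^ 2) (A ^ 2) (B ^ 2) * (1 / (t ^ 2 + a ^ 2)) +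
      be (a ^ 2) (A ^ 2) (B ^ 2) * (1 / (t ^ 2 + A ^ 2)) +
      ga (a ^ 2) (A ^ 2) (B ^ 2) * (1 / (t ^ 2 + A ^ 2) ^ 2) +
      be (a ^ 2) (B ^ 2) (A ^ 2) * (1 / (t ^ 2 + B ^ 2)) +
      ga (a ^ 2) (B ^ 2) (A ^ 2) * (1 / (t ^ 2 + B ^ 2) ^ 2)) := by
    intro t
    have q1 : t ^ 2 + a ^ 2 ≠ 0 := by positivity
    have q2 : t ^ 2 + A ^ 2 ≠ 0 := by positivity
    have q3 : t ^ 2 + B ^ 2 ≠ 0 := by positivity
    rw [← pf q1 q2 q3 e1 e2 e3]
    unfold F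
    rw [mul_div_assoc]
  have i1 : Integrable (fun t : ℝ => al (a ^ 2) (A ^ 2) (B ^ 2) * (1 / (t ^ 2 + a ^ 2))) :=
    (int1 ha).const_mul _
  have i2 : Integrable (fun t : ℝ => be (a ^ 2) (A ^ 2) (B ^ 2) * (1 / (t ^ 2 + A ^ 2))) :=
    (int1 hA).const_mul _
  have i3 : Integrable (fun t : ℝ => ga (a ^ 2) (A ^ 2) (B ^ 2) * (1 / (t ^ 2 + A ^ 2) ^ 2)) :=
    (int2 hA).const_mul _
  have i4 : Integrable (fun t : ℝ => be (a ^ 2) (B ^ 2) (A ^ 2) * (1 / (t ^ 2 + B ^ 2))) :=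
    (int1 hB).const_mul _
  have i5 : Integrable (fun t : ℝ => ga (a ^ 2) (B ^ 2) (A ^ 2) * (1 / (t ^ 2 + B ^ 2) ^ 2)) :=
    (int2 hB).const_mul _
  have i12 : Integrable (fun t : ℝ => al (a ^ 2) (A ^ 2) (B ^ 2) * (1 / (t ^ 2 + a ^ 2)) +
      be (a ^ 2) (A ^ 2) (B ^ 2) * (1 / (t ^ 2 + A ^ 2))) := i1.add i2
  have i13 : Integrable (fun t : ℝ => al (a ^ 2) (A ^ 2) (B ^ 2) * (1 / (t ^ 2 + a ^ 2)) +
      be (a ^ 2) (A ^ 2) (B ^ 2) * (1 / (t ^ 2 + A ^ 2)) +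
      ga (a ^ 2) (A ^ 2) (B ^ 2) * (1 / (t ^ 2 + A ^ 2) ^ 2)) := i12.add i3
  have i14 : Integrable (fun t : ℝ => al (a ^ 2) (A ^ 2) (B ^ 2) * (1 / (t ^ 2 + a ^ 2)) +
      be (a ^ 2) (A ^ 2) (B ^ 2) * (1 / (t ^ 2 + A ^ 2)) +
      ga (a ^ 2) (A ^ 2) (B ^ 2) * (1 / (t ^ 2 + A ^ 2) ^ 2) +
      be (a ^ 2) (B ^ 2) (A ^ 2) * (1 / (t ^ 2 + B ^ 2))) := i13.add i4
  rw [integral_congr_ae (ae_of_all _ hF), integral_const_mul, integral_add i14 i5,
    integral_add i13 i4, integral_add i12 i3, integral_add i1 i2, integral_const_mul,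
    integral_const_mul, integral_const_mul, integral_const_mul, integral_const_mul,
    val1 ha, val1 hA, val2 hA, val1 hB, val2 hB]
  exact fin ha hA hB h1' h2' h3'

theorem F_bound {a A B : ℝ} (hA : 0 < A) (hB : 0 < B) {e : ℝ} (he : 0 ≤ e) (he1 : e ≤ 1)
    (t : ℝ) : ‖F (a + e) (A + 2 * e) (B + 3 * e) t‖ ≤
      (A + 2) * (B + 3) / B ^ 4 * (1 / (t ^ 2 + A ^ 2) ^ 2) := by
  unfold F
  rw [Real.norm_of_nonneg (by positivity)]
  have h1 : t ^ 2 / (t ^ 2 + (a + e) ^ 2) ≤ 1 := div_le_one_of_le₀ (by nlinarith [sq_nonneg (a + e)])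
    (by positivity)
  have h2 : (t ^ 2 + A ^ 2) ^ 2 ≤ (t ^ 2 + (A + 2 * e) ^ 2) ^ 2 := by
    apply pow_le_pow_left₀ (by positivity)
    nlinarith [mul_nonneg hA.le he]
  have h3 : B ^ 4 ≤ (t ^ 2 + (B + 3 * e) ^ 2) ^ 2 := by
    have : B ^ 2 ≤ t ^ 2 + (B + 3 * e) ^ 2 := by nlinarith [mul_nonneg hB.le he, sq_nonneg t]
    calc B ^ 4 = (B ^ 2) ^ 2 := by ring
      _ ≤ _ := pow_le_pow_left₀ (by positivity) this 2
  have h4 : (A + 2 * e) * (B + 3 * e) ≤ (A + 2) * (B + 3) := by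
    apply mul_le_mul _ _ (by positivity) (by positivity) <;> linarith
  have hA2 : 0 < (t ^ 2 + (A + 2 * e) ^ 2) ^ 2 := by positivity
  have hB2 : 0 < (t ^ 2 + (B + 3 * e) ^ 2) ^ 2 := by positivity
  calc (A + 2 * e) * (B + 3 * e) * t ^ 2 / ((t ^ 2 + (a + e) ^ 2) *
        (t ^ 2 + (A + 2 * e) ^ 2) ^ 2 * (t ^ 2 + (B + 3 * e) ^ 2) ^ 2)
      = (A + 2 * e) * (B + 3 * e) * (t ^ 2 / (t ^ 2 + (a + e) ^ 2)) *
        (1 / (t ^ 2 + (A + 2 * e) ^ 2) ^ 2) * (1 / (t ^ 2 + (B + 3 * e) ^ 2) ^ 2) := by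
        rw [mul_assoc (t ^ 2 + (a + e) ^ 2), mul_div_mul_comm]
        by_cases hz : t ^ 2 + (a + e) ^ 2 = 0
        · rw [hz]; simp
        · field_simp
    _ ≤ (A + 2) * (B + 3) * 1 * (1 / (t ^ 2 + A ^ 2) ^ 2) * (1 / B ^ 4) := by
        gcongr
    _ = _ := by ring

theorem F_meas (a A B : ℝ) : Measurable (F a A B) := by
  unfold F
  fun_prop

theorem F_int {a A B : ℝ} (hA : 0 < A) (hB : 0 < B) : Integrable (F a A B) := by
  refine ((int2 hA).const_mul ((A + 2) * (B + 3) / B ^ 4)).mono'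
    (F_meas a A B).aestronglyMeasurable (ae_of_all _ fun t => ?_)
  have := F_bound (a := a) hA hB le_rfl zero_le_one t
  simpa using this

theorem evd {x y m n : ℝ} (hmn : m ≠ n) : ∀ᶠ e in 𝓝[>] (0:ℝ), x + m * e ≠ y + n * e := by
  by_cases hxy : x = y
  · filter_upwards [self_mem_nhdsWithin] with e he h
    rw [hxy] at h
    have h1 : m * e = n * e := by linarith
    exact hmn (mul_right_cancel₀ (ne_of_gt he) h1)
  · have h1 : Tendsto (fun e : ℝ => (x + m * e) - (y + n * e)) (𝓝[>] 0) (𝓝 (x - y)) := by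
      have : Continuous (fun e : ℝ => (x + m * e) - (y + n * e)) := by fun_prop
      have h := this.tendsto 0
      simp only [mul_zero, add_zero] at h
      exact h.mono_left nhdsWithin_le_nhds
    have h2 := h1.eventually_ne (sub_ne_zero.2 hxy)
    filter_upwards [h2] with e he h
    exact he (sub_eq_zero.2 h)

theorem thm : EC237.ZE.G_MI := by
  intro a A B ha hA hB
  refine ⟨F_int hA hB, ?_⟩
  show ∫ t : ℝ, F a A B t = _
  have hb := (int2 hA).const_mul ((A + 2) * (B + 3) / B ^ 4)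
  have hlim : Tendsto (fun e : ℝ => ∫ t : ℝ, F (a + e) (A + 2 * e) (B + 3 * e) t) (𝓝[>] 0)
      (𝓝 (∫ t : ℝ, F a A B t)) := by
    refine tendsto_integral_filter_of_dominated_convergence _ ?_ ?_ hb ?_
    · exact Eventually.of_forall fun e => (F_meas _ _ _).aestronglyMeasurable
    · filter_upwards [Ioc_mem_nhdsGT (zero_lt_one : (0:ℝ) < 1)] with e he
      exact ae_of_all _ fun t => F_bound hA hB he.1.le he.2 t
    · have hne : ∀ᵐ t : ℝ, t ≠ 0 := by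
        rw [ae_iff]
        simp
      filter_upwards [hne] with t ht
      have ht2 : 0 < t ^ 2 := by positivity
      have hc : ContinuousAt (fun e : ℝ => F (a + e) (A + 2 * e) (B + 3 * e) t) 0 := by
        unfold F
        apply ContinuousAt.div (by fun_prop) (by fun_prop)
        simp only [mul_zero, add_zero]
        positivity
      have h := hc.tendsto
      simp only [mul_zero, add_zero] at h
      exact h.mono_left nhdsWithin_le_nhds
  have hlim2 : Tendsto (fun e : ℝ => Real.pi / 128 * gg (((A + 2 * e) + (B + 3 * e)) / 2)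
      (((a + e) + (A + 2 * e)) / 2) (((a + e) + (B + 3 * e)) / 2)) (𝓝[>] 0)
      (𝓝 (Real.pi / 128 * gg ((A + B) / 2) ((a + A) / 2) ((a + B) / 2))) := by
    have hc : ContinuousAt (fun e : ℝ => Real.pi / 128 * gg (((A + 2 * e) + (B + 3 * e)) / 2)
      (((a + e) + (A + 2 * e)) / 2) (((a + e) + (B + 3 * e)) / 2)) 0 := by
      have k1 : (A + 2 * 0 + (B + 3 * 0)) / 2 ≠ 0 := by
        rw [mul_zero, mul_zero, add_zero, add_zero]; positivity
      have k2 : (a + 0 + (A + 2 * 0)) / 2 ≠ 0 := by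
        rw [mul_zero, add_zero, add_zero]; positivity
      have k3 : (a + 0 + (B + 3 * 0)) / 2 ≠ 0 := by
        rw [mul_zero, add_zero, add_zero]; positivity
      unfold gg
      fun_prop (disch := first | assumption | positivity)
    have h := hc.tendsto
    simp only [mul_zero, add_zero] at h
    exact h.mono_left nhdsWithin_le_nhds
  refine tendsto_nhds_unique hlim (hlim2.congr' ?_)
  filter_upwards [self_mem_nhdsWithin, evd (x := a) (y := A) (m := 1) (n := 2) (by norm_num),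
    evd (x := a) (y := B) (m := 1) (n := 3) (by norm_num),
    evd (x := A) (y := B) (m := 2) (n := 3) (by norm_num)] with e he h1 h2 h3
  have he' : 0 < e := he
  rw [one_mul] at h1 h2
  exact (dist (by positivity) (by positivity) (by positivity) h1 h2 h3).symm

end EC237.ZE.PkMI
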